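import Pool.Agent.T6.H2.WK.Mainh

/-!
# MP_fefad7_co: the Waiter-Client `k`-SAT game, the bounds `64 k^2` and `36 h k`, `h ≈ log_2 k`, for Client

Client wins the `(1 : q)` Waiter-Client `k`-SAT game if `n (q + 1) ≥ 64 k^2 (n choose k)` and `n ≥ 200 k`, and if
`n (q + 1) ≥ 36 h k (n choose k)` with `11 ≤ h ≤ k ≤ 2^h` and `n ≥ 100 h k` (for example `h = max (11, ⌈log_2 k⌉)`). So the
ratio of Q1 is at least `1 / (65 k^2 ln 2)`, and at least `1 / (37 h k ln 2)`. The definitions of the game and of the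
threshold bias are in `Pool.Agent.Y117.SG.Game`.
-/

set_option autoImplicit false

open Pool.Agent.Y117.SG

namespace Pool.Agent.Results.MP_fefad7_co.WaiterClientNearLinear

theorem result :
    -- (1) Client wins, explicit bound for all `k ≥ 2`
    (∀ n k q : ℕ, 2 ≤ k → 200 * k ≤ n → (64 : ℝ) * k ^ 2 * (n.choose k : ℝ) ≤ n * ((q : ℝ) + 1) →
      ¬ Forces (offerWC q) (fun Y : Finset (Clause n) => ¬ Sat Y) (board n k) ∅) ∧
    -- (2) the ratio of the question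
    (∀ n k : ℕ, 2 ≤ k → 200 * k ≤ n →
      1 / (65 * (k : ℝ) ^ 2 * Real.log 2) ≤
        1 / (n : ℝ) * (n.choose k : ℝ) * ((bWC n k : ℝ))⁻¹ / Real.log 2) ∧
    -- (3) Client wins, `36 h k` with `k ≤ 2^h`
    (∀ n k h q : ℕ, 11 ≤ h → h ≤ k → k ≤ 2 ^ h → 100 * (h * k) ≤ n →
      (36 : ℝ) * h * k * (n.choose k : ℝ) ≤ n * ((q : ℝ) + 1) →
      ¬ Forces (offerWC q) (fun Y : Finset (Clause n) => ¬ Sat Y) (board n k) ∅) ∧
    -- (4) the ratio of the question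
    (∀ n k h : ℕ, 11 ≤ h → h ≤ k → k ≤ 2 ^ h → 100 * (h * k) ≤ n →
      1 / (37 * (h : ℝ) * k * Real.log 2) ≤
        1 / (n : ℝ) * (n.choose k : ℝ) * ((bWC n k : ℝ))⁻¹ / Real.log 2) :=
  ⟨fun n k q => Pool.Agent.T6.H2.WK.main2 n k q, fun n k => Pool.Agent.T6.H2.WK.ratio2 n k,
    fun n k h q => Pool.Agent.T6.H2.WK.mainh n k h q, fun n k h => Pool.Agent.T6.H2.WK.ratioh n k h⟩

end Pool.Agent.Results.MP_fefad7_co.WaiterClientNearLinear
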